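import Mathlib

namespace Pool.Agent.Results.MP_0aef5d_co.Counter

open SimpleGraph Finset
open Classical

/-- `G` is maximal `H`-free. -/
def MaxFree {W V : Type} (H : SimpleGraph W) (G : SimpleGraph V) : Prop :=
  H.Free G ∧ ∀ u v, u ≠ v → ¬ G.Adj u v → H ⊑ G ⊔ edge u v

/-- VC-dimension of the neighbourhood system. -/
noncomputable def VC {V : Type} [Fintype V] (G : SimpleGraph V) : ℕ :=
  (univ.image (fun v => G.neighborFinset v)).vcDim

/-- `G` is a blowup of `F`. -/
def IsBlowup {V U : Type} (G : SimpleGraph V) (F : SimpleGraph U) : Prop :=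
  ∃ φ : V → U, Function.Surjective φ ∧ ∀ u v, G.Adj u v ↔ F.Adj (φ u) (φ v)

noncomputable def deltaVC {W : Type} (H : SimpleGraph W) : ℝ :=
  sInf {α : ℝ | 0 ≤ α ∧ ∃ C : ℕ, ∀ (V : Type) [Fintype V] (G : SimpleGraph V), MaxFree H G →
    α * Fintype.card V ≤ G.minDegree → VC G ≤ C}

noncomputable def deltaB {W : Type} (H : SimpleGraph W) : ℝ :=
  sInf {α : ℝ | 0 ≤ α ∧ ∃ C : ℕ, ∀ (V : Type) [Fintype V] (G : SimpleGraph V), MaxFree H G →
    α * Fintype.card V ≤ G.minDegree →
      ∃ (k : ℕ) (F : SimpleGraph (Fin k)), k ≤ C ∧ IsBlowup G F}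

def W4 : SimpleGraph (Fin 5) :=
  fromRel (fun i j => i = 0 ∨ ((i = 1 ∨ i = 2) ∧ (j = 3 ∨ j = 4)))

def HasW {V : Type} (G : SimpleGraph V) : Prop :=
  ∃ c a b x y, G.Adj c a ∧ G.Adj c b ∧ G.Adj c x ∧ G.Adj c y ∧ G.Adj a x ∧ G.Adj a y ∧
    G.Adj b x ∧ G.Adj b y ∧ a ≠ b ∧ x ≠ y

theorem hasW_iff {V : Type} (G : SimpleGraph V) : W4 ⊑ G ↔ HasW G := by
  constructor
  · rintro ⟨f⟩
    have m : ∀ i j, W4.Adj i j → G.Adj (f i) (f j) := fun i j h => f.toHom.map_adj h
    refine ⟨f 0, f 1, f 2, f 3, f 4, m _ _ ?_, m _ _ ?_, m _ _ ?_, m _ _ ?_, m _ _ ?_, m _ _ ?_,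
      m _ _ ?_, m _ _ ?_, fun h => ?_, fun h => ?_⟩
    any_goals simp [W4]
    · exact absurd (f.injective h) (by decide)
    · exact absurd (f.injective h) (by decide)
  · rintro ⟨c, a, b, x, y, h1, h2, h3, h4, h5, h6, h7, h8, h9, h10⟩
    refine ⟨⟨⟨![c, a, b, x, y], ?_⟩, ?_⟩⟩
    · intro i j h
      fin_cases i <;> fin_cases j <;> simp [W4] at h <;>
        first | assumption | (apply Adj.symm; assumption)
    · have := h1.ne; have := h2.ne; have := h3.ne; have := h4.ne; have := h5.ne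
      have := h6.ne; have := h7.ne; have := h8.ne
      intro i j h
      fin_cases i <;> fin_cases j <;> simp at h <;> first | rfl | simp_all

/-- inside degrees at most one -/
def Low {V : Type} (G : SimpleGraph V) (s : V → Prop) : Prop :=
  ∀ w a b, G.Adj w a → G.Adj w b → (s a ↔ s w) → (s b ↔ s w) → a = b

theorem not_hasW {V : Type} {G : SimpleGraph V} {s : V → Prop} (h : Low G s) : ¬ HasW G := by
  rintro ⟨c, a, b, x, y, h1, h2, h3, h4, h5, h6, h7, h8, h9, h10⟩
  have n1 := h5.ne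
  have n2 := h6.ne
  have n3 := h7.ne
  have n4 := h8.ne
  by_cases hc : s c <;> by_cases ha : s a <;> by_cases hb : s b <;> by_cases hx : s x <;>
    by_cases hy : s y <;>
  first
    | (refine h9 (h c a b h1 h2 ?_ ?_) <;> (simp only [*]; done))
    | (refine h10 (h c x y h3 h4 ?_ ?_) <;> (simp only [*]; done))
    | (refine n1 (h c a x h1 h3 ?_ ?_) <;> (simp only [*]; done))
    | (refine n2 (h c a y h1 h4 ?_ ?_) <;> (simp only [*]; done))
    | (refine n3 (h c b x h2 h3 ?_ ?_) <;> (simp only [*]; done))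
    | (refine n4 (h c b y h2 h4 ?_ ?_) <;> (simp only [*]; done))
    | (refine h10 (h a x y h5 h6 ?_ ?_) <;> (simp only [*]; done))
    | (refine h10 (h b x y h7 h8 ?_ ?_) <;> (simp only [*]; done))
    | (refine h9 (h x a b h5.symm h7.symm ?_ ?_) <;> (simp only [*]; done))
    | (refine h9 (h y a b h6.symm h8.symm ?_ ?_) <;> (simp only [*]; done))

section
variable {V : Type} [Fintype V] {G : SimpleGraph V}

theorem vc_low (hm : MaxFree W4 G) {s : V → Prop} (h : Low G s) : VC G ≤ 2 := by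
  have cross : ∀ u v, ¬ (s u ↔ s v) → G.Adj u v := by
    intro u v huv
    by_contra hn
    have hne : u ≠ v := fun e => huv (by rw [e])
    refine not_hasW (s := s) ?_ ((hasW_iff _).1 (hm.2 u v hne hn))
    intro w a b ha hb sa sb
    have f : ∀ a, (G ⊔ edge u v).Adj w a → (s a ↔ s w) → G.Adj w a := by
      intro a ha sa
      rcases ha with ha | ha
      · exact ha
      · rw [edge_adj] at ha
        rcases ha.1 with ⟨rfl, rfl⟩ | ⟨rfl, rfl⟩
        · exact absurd sa.symm huv
        · exact absurd sa huv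
    exact h w a b (f a ha sa) (f b hb sb) sa sb
  refine Finset.sup_le (fun S hS => ?_)
  rw [mem_shatterer] at hS
  by_contra hlt
  obtain ⟨a, b, c, ha, hb, hc, hab, hac, hbc⟩ := two_lt_card_iff.1 (not_le.1 hlt)
  obtain ⟨_, hu, e0⟩ := hS (empty_subset S)
  obtain ⟨v, _, rfl⟩ := mem_image.1 hu
  have same : ∀ x ∈ S, (s v ↔ s x) := by
    intro x hx
    by_contra hn
    have : x ∈ S ∩ G.neighborFinset v := mem_inter.2 ⟨hx, by simpa using cross v x hn⟩
    rw [e0] at this
    simp at this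
  obtain ⟨_, hu, e1⟩ := hS (show {a, b} ⊆ S by simp [insert_subset_iff, ha, hb])
  obtain ⟨w, _, rfl⟩ := mem_image.1 hu
  have wa : G.Adj w a := by
    have : a ∈ S ∩ G.neighborFinset w := by rw [e1]; simp
    simpa using (mem_inter.1 this).2
  have wb : G.Adj w b := by
    have : b ∈ S ∩ G.neighborFinset w := by rw [e1]; simp
    simpa using (mem_inter.1 this).2
  have wc : ¬ G.Adj w c := by
    intro h'
    have : c ∈ S ∩ G.neighborFinset w := mem_inter.2 ⟨hc, by simpa using h'⟩
    rw [e1] at this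
    simp only [mem_insert, mem_singleton] at this
    rcases this with h | h
    · exact hac h.symm
    · exact hbc h.symm
  have sw : (s w ↔ s c) := by
    by_contra hn
    exact wc (cross w c hn)
  have s1 := same a ha
  have s2 := same b hb
  have s3 := same c hc
  exact hab (h w a b wa wb (s1.symm.trans (s3.trans sw.symm)) (s2.symm.trans (s3.trans sw.symm)))

omit [Fintype V] in
theorem three (Z A B C : Finset V) (h : 2 * #Z + 2 ≤ #(A ∩ Z) + #(B ∩ Z) + #(C ∩ Z)) :
    ∃ x y, x ≠ y ∧ x ∈ A ∧ x ∈ B ∧ x ∈ C ∧ y ∈ A ∧ y ∈ B ∧ y ∈ C := by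
  have h1 := card_union_add_card_inter (A ∩ Z) (B ∩ Z)
  have h2 := card_union_add_card_inter ((A ∩ Z) ∩ (B ∩ Z)) (C ∩ Z)
  have h3 : #(A ∩ Z ∪ B ∩ Z) ≤ #Z :=
    card_le_card (union_subset inter_subset_right inter_subset_right)
  have h4 : #((A ∩ Z) ∩ (B ∩ Z) ∪ C ∩ Z) ≤ #Z :=
    card_le_card (union_subset (inter_subset_left.trans inter_subset_right) inter_subset_right)
  obtain ⟨x, y, hx, hy, hxy⟩ := one_lt_card_iff.1
    (show 1 < #((A ∩ Z) ∩ (B ∩ Z) ∩ (C ∩ Z)) by omega)
  simp only [mem_inter] at hx hy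
  exact ⟨x, y, hxy, hx.1.1.1, hx.1.2.1, hx.2.1, hy.1.1.1, hy.1.2.1, hy.2.1⟩

theorem wheel3 (hf : ¬ HasW G) (Z : Finset V) {w a b : V} (ha : G.Adj w a) (hb : G.Adj w b)
    (hab : a ≠ b) (A : Finset V) (hA : A ⊆ G.neighborFinset w) :
    #(A ∩ Z) + #(G.neighborFinset a ∩ Z) + #(G.neighborFinset b ∩ Z) < 2 * #Z + 2 := by
  by_contra hn
  obtain ⟨x, y, hxy, h1, h2, h3, h4, h5, h6⟩ := three Z _ _ _ (not_lt.1 hn)
  have h1 := hA h1
  have h4 := hA h4
  rw [mem_neighborFinset] at h1 h2 h3 h4 h5 h6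
  exact hf ⟨w, a, b, x, y, ha, hb, h1, h4, h2, h5, h3, h6, hab, hxy⟩

omit [Fintype V] in
theorem bonf (f : V → Finset V) (T : Finset V)
    (h : ∀ a ∈ T, ∀ b ∈ T, a ≠ b → #(f a ∩ f b) ≤ 1) :
    ∑ a ∈ T, #(f a) ≤ #(T.biUnion f) + #T * #T := by
  induction T using Finset.induction_on with
  | empty => simp
  | insert a T ha ih =>
    have ih := ih (fun x hx y hy => h x (mem_insert_of_mem hx) y (mem_insert_of_mem hy))
    rw [sum_insert ha, biUnion_insert, card_insert_of_notMem ha]
    have h1 := card_union_add_card_inter (f a) (T.biUnion f)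
    have h2 : #(f a ∩ T.biUnion f) ≤ #T := by
      rw [inter_biUnion]
      refine card_biUnion_le.trans ?_
      refine (sum_le_card_nsmul _ _ 1 (fun x hx => h a (mem_insert_self _ _) x
        (mem_insert_of_mem hx) (fun e => ha (e ▸ hx)))).trans (by simp)
    nlinarith

theorem split_card (A X : Finset V) : #(A ∩ X) + #(A ∩ Xᶜ) = #A := by
  rw [← sdiff_eq_inter_compl, card_inter_add_card_sdiff]

theorem exists_low (hf : ¬ HasW G) (hn : 200000 ≤ Fintype.card V)
    (hd : ∀ v, 49 * Fintype.card V ≤ 100 * #(G.neighborFinset v)) : ∃ s, Low G s := by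
  have : Nonempty V := Fintype.card_pos_iff.1 (by omega)
  obtain ⟨c⟩ := this
  set n := Fintype.card V with hn'
  set X := G.neighborFinset c with hX
  set Bad := X.filter (fun x => n < 50 * #(G.neighborFinset x ∩ X)) with hBad
  have hB : #Bad ≤ 50 := by
    by_contra hlt
    obtain ⟨T, hT, hc⟩ := exists_subset_card_eq (show 51 ≤ #Bad by omega)
    have h1 := bonf (fun x => G.neighborFinset x ∩ X) T (by
      intro a ha b hb hab
      by_contra h2
      obtain ⟨x, y, hx, hy, hxy⟩ := one_lt_card_iff.1 (not_le.1 h2)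
      have ha := (mem_filter.1 (hT ha)).1
      have hb := (mem_filter.1 (hT hb)).1
      simp only [hX, mem_inter, mem_neighborFinset] at hx hy ha hb
      exact hf ⟨c, a, b, x, y, ha, hb, hx.1.2, hy.1.2, hx.1.1, hy.1.1, hx.2.1, hy.2.1, hab, hxy⟩)
    have h2 : #(T.biUnion (fun x => G.neighborFinset x ∩ X)) ≤ n := card_le_univ _
    have h3 : #T * n ≤ ∑ a ∈ T, 50 * #(G.neighborFinset a ∩ X) := by
      have := card_nsmul_le_sum T (fun a => 50 * #(G.neighborFinset a ∩ X)) n
        (fun a ha => (mem_filter.1 (hT ha)).2.le)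
      simpa using this
    rw [← mul_sum, hc] at h3
    rw [hc] at h1
    omega
  have hXc : #X + #Xᶜ = n := card_add_card_compl X
  have dc := hd c
  have good : ∀ x ∈ X \ Bad, 47 * n ≤ 100 * #(G.neighborFinset x ∩ Xᶜ) := by
    intro x hx
    have h1 := split_card (G.neighborFinset x) X
    have h2 := hd x
    have h3 : ¬ n < 50 * #(G.neighborFinset x ∩ X) := fun h =>
      (mem_sdiff.1 hx).2 (mem_filter.2 ⟨(mem_sdiff.1 hx).1, h⟩)
    omega
  obtain ⟨u, hu⟩ : (X \ Bad).Nonempty := by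
    have := le_card_sdiff Bad X
    exact card_pos.1 (by rw [← hX] at dc; omega)
  set Y := G.neighborFinset u ∩ Xᶜ with hY
  have hYc : #Y + #Yᶜ = n := card_add_card_compl Y
  have dY : 47 * n ≤ 100 * #Y := good u hu
  have dich : ∀ w, ¬ #(G.neighborFinset w ∩ X) < 52 →
      100 * #(G.neighborFinset w ∩ Y) ≤ 8 * n + 200 := by
    intro w hw
    have h1 := le_card_sdiff Bad (G.neighborFinset w ∩ X)
    obtain ⟨a, b, ha, hb, hab⟩ := one_lt_card_iff.1
      (show 1 < #((G.neighborFinset w ∩ X) \ Bad) by omega)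
    simp only [mem_sdiff, mem_inter] at ha hb
    have h2 := wheel3 hf Xᶜ ((mem_neighborFinset _ _ _).1 ha.1.1)
      ((mem_neighborFinset _ _ _).1 hb.1.1) hab (G.neighborFinset w ∩ Y) inter_subset_left
    have h3 : G.neighborFinset w ∩ Y ∩ Xᶜ = G.neighborFinset w ∩ Y :=
      inter_eq_left.2 (inter_subset_right.trans inter_subset_right)
    rw [h3] at h2
    have h4 := good a (mem_sdiff.2 ⟨ha.1.2, ha.2⟩)
    have h5 := good b (mem_sdiff.2 ⟨hb.1.2, hb.2⟩)
    rw [← hX] at dc
    omega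
  refine ⟨fun w => #(G.neighborFinset w ∩ X) < 52, fun w a b ha hb sa sb => ?_⟩
  by_contra hab
  have d1 := hd w
  have d2 := hd a
  have d3 := hd b
  by_cases hw : #(G.neighborFinset w ∩ X) < 52
  · have h2 := wheel3 hf Xᶜ ha hb hab _ subset_rfl
    have h3 := split_card (G.neighborFinset w) X
    have h4 := split_card (G.neighborFinset a) X
    have h5 := split_card (G.neighborFinset b) X
    have h6 := sa.2 hw
    have h7 := sb.2 hw
    rw [← hX] at dc
    omega
  · have h2 := wheel3 hf Yᶜ ha hb hab _ subset_rfl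
    have h3 := split_card (G.neighborFinset w) Y
    have h4 := split_card (G.neighborFinset a) Y
    have h5 := split_card (G.neighborFinset b) Y
    have h6 := dich a (fun h => hw (sa.1 h))
    have h7 := dich b (fun h => hw (sb.1 h))
    have h8 := dich w hw
    omega

theorem vc_le_card : VC G ≤ Fintype.card V := Finset.sup_le (fun S _ => card_le_univ S)

end

def K (m : ℕ) : SimpleGraph (Bool × Fin (m + 1) × Bool) where
  Adj u v := u.1 ≠ v.1 ∨ (u.2.1 = v.2.1 ∧ u.2.2 ≠ v.2.2)
  symm := ⟨fun _ _ h => h.imp Ne.symm (fun h => ⟨h.1.symm, h.2.symm⟩)⟩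
  loopless := ⟨fun _ h => by simp at h⟩

theorem K_max (m : ℕ) : MaxFree W4 (K m) := by
  refine ⟨fun h => not_hasW (s := fun u => u.1 = true) ?_ ((hasW_iff _).1 h), ?_⟩
  · rintro ⟨s, i, j⟩ ⟨s1, i1, j1⟩ ⟨s2, i2, j2⟩ ha hb sa sb
    simp only [K] at ha hb sa sb
    cases s <;> cases s1 <;> cases s2 <;> cases j <;> cases j1 <;> cases j2 <;> simp_all
  · rintro ⟨s, i, j⟩ ⟨s1, i1, j1⟩ hne hn
    have hs : s = s1 := by
      by_contra h
      exact hn (Or.inl h)
    subst hs
    rw [hasW_iff]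
    refine ⟨(s, i, j), (s, i, !j), (s, i1, j1), (!s, 0, true), (!s, 0, false), Or.inl ?_,
      Or.inr ?_, Or.inl ?_, Or.inl ?_, Or.inl ?_, Or.inl ?_, Or.inl ?_, Or.inl ?_, ?_, ?_⟩
    any_goals simp [K]
    · rw [edge_adj]; exact ⟨Or.inl ⟨rfl, rfl⟩, hne⟩
    · intro h1
      by_contra h2
      exact hn (Or.inr ⟨h1, h2⟩)

theorem K_deg (m : ℕ) : 2 * (m + 1) ≤ (K m).minDegree := by
  refine le_minDegree_of_forall_le_degree _ _ (fun v => ?_)
  rw [← card_neighborFinset_eq_degree]
  have : #((univ : Finset (Fin (m + 1) × Bool)).image (fun p => (!v.1, p))) = 2 * (m + 1) := by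
    rw [card_image_of_injective _ (fun p q h => (Prod.ext_iff.1 h).2)]
    simp [mul_comm]
  rw [← this]
  refine card_le_card (fun x hx => ?_)
  obtain ⟨p, _, rfl⟩ := mem_image.1 hx
  rw [mem_neighborFinset]
  exact Or.inl (by simp)

theorem K_blow (m k : ℕ) (F : SimpleGraph (Fin k)) (h : IsBlowup (K m) F) : m < k := by
  obtain ⟨φ, _, hφ⟩ := h
  have : Function.Injective (fun i : Fin (m + 1) => φ (true, i, true)) := by
    intro i j e
    have h1 : (K m).Adj (true, i, true) (true, i, false) := Or.inr ⟨rfl, by simp⟩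
    simp only at e
    rw [hφ, e, ← hφ] at h1
    rcases h1 with h1 | h1
    · exact absurd rfl h1
    · exact h1.1.symm
  simpa using Fintype.card_le_of_injective _ this

theorem result : ∃ H : SimpleGraph (Fin 5), deltaVC H < deltaB H := by
  refine ⟨W4, lt_of_le_of_lt (b := 49 / 100) ?_ (lt_of_lt_of_le (b := 1 / 2) (by norm_num) ?_)⟩
  · refine csInf_le ⟨0, fun α h => h.1⟩ ⟨by norm_num, 200000, fun V _ G hm hd => ?_⟩
    by_cases hn : 200000 ≤ Fintype.card V
    · obtain ⟨s, hs⟩ := exists_low (G := G) (fun h => hm.1 ((hasW_iff _).2 h)) hn (fun v => by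
        have h1 : (G.minDegree : ℝ) ≤ #(G.neighborFinset v) := by
          rw [card_neighborFinset_eq_degree]
          exact_mod_cast G.minDegree_le_degree v
        have : (49 * Fintype.card V : ℝ) ≤ 100 * #(G.neighborFinset v) := by linarith
        exact_mod_cast this)
      exact (vc_low hm hs).trans (by norm_num)
    · exact vc_le_card.trans (by omega)
  · refine le_csInf ⟨1, by norm_num, 0, fun V _ G _ hd => ?_⟩ ?_
    · rcases isEmpty_or_nonempty V with hV | hV
      · exact ⟨0, ⊥, le_rfl, fun v => hV.elim v, fun i => i.elim0, fun v => hV.elim v⟩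
      · exfalso
        obtain ⟨v⟩ := hV
        have h1 := (G.minDegree_le_degree v).trans_lt (G.degree_lt_card_verts v)
        have h2 : Fintype.card V ≤ G.minDegree := by
          rw [one_mul] at hd
          exact_mod_cast hd
        omega
    · rintro α ⟨_, C, hC⟩
      by_contra hlt
      push Not at hlt
      obtain ⟨k, F, hk, hb⟩ := hC _ (K C) (K_max C) (by
        have h1 : ((2 * (C + 1) : ℕ) : ℝ) ≤ (K C).minDegree := by exact_mod_cast K_deg C
        refine le_trans ?_ h1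
        simp only [Fintype.card_prod, Fintype.card_bool, Fintype.card_fin]
        push_cast
        have : (0 : ℝ) ≤ C := Nat.cast_nonneg C
        nlinarith)
      have := K_blow C k F hb
      omega

end Pool.Agent.Results.MP_0aef5d_co.Counter
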